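import Pool.Agent.H95.VG.Main
import Pool.Agent.H95.VG.Stmt

/-!
# MP_6803f2_an: volume growth of meromorphic maps on punctured polydisks

Let `X` be a compact complex manifold of dimension `n ≥ 2` with a Hermitian metric and `f` a
meromorphic map from the punctured unit polydisk of `ℂⁿ` to `X`.  Then the volume of the image of
the shell `r < max |z_j| < ρ`, counted with multiplicity, is `O(log (1/r))` as `r → 0`, as soon as
it is finite near the outer boundary (which is automatic for `ρ < 1`).

The definitions are in `Pool/Agent/H95/VG/Stmt.lean`: `HermMetric` (continuous Hermitian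
metrics), `volDensity` (the density of `(f^* ω)^n`), `imageVol` (its integral), `IsAnalyticIn`
(analytic subsets), `LocDimLE` (local dimension at most `d`), `IsMeromorphic` (meromorphic maps by
their graphs), `PolyStar` and `Shell`.
-/

open MeasureTheory Set Filter Topology
open scoped ENNReal NNReal ContDiff Manifold ComplexConjugate

namespace Pool.Agent.Results.MP_6803f2_an.VolumeGrowthLog

open Pool.Agent.H95.VG.Stmt

/-- a metric in the sense of the statement is a metric in the sense of the proof -/
noncomputable def conv {n : ℕ} {X : Type} [TopologicalSpace X] [ChartedSpace (Fin n → ℂ) X]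
    (g : HermMetric n X) : Pool.Agent.H95.VG.HMetric n X where
  H := g.H
  add_left := fun x => (g.herm x).1
  smul_left := fun x => (g.herm x).2.1
  symm := fun x => (g.herm x).2.2.1
  pos := fun x => (g.herm x).2.2.2
  cont := g.cont

/-- **Volume growth is at most logarithmic.**  For every `n ≥ 2`, every compact complex manifold
`X` of dimension `n`, every Hermitian metric `g` on `X` and every meromorphic map `f` from the
punctured polydisk to `X` (with graph `Γ` and holomorphic outside `I`), and every `ρ ≤ 1` such
that the volume of `f` over `r₀ < max |z_j| < ρ` is finite for some `r₀ < 1` (for `ρ < 1` this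
always holds, take `r₀ = ρ`): `Vol (f (A(r, ρ))) ≤ C log (1/r)` for `0 < r ≤ 1/2`. -/
theorem result : ∀ (n : ℕ), 2 ≤ n → ∀ (X : Type) [TopologicalSpace X] [T2Space X]
    [CompactSpace X] [ChartedSpace (Fin n → ℂ) X] [IsManifold (Md n) 1 X]
    (g : HermMetric n X) (I : Set (Fin n → ℂ)) (Γ : Set ((Fin n → ℂ) × X))
    (f : (Fin n → ℂ) → X), IsMeromorphic (PolyStar n) I Γ f → ∀ ρ : ℝ, ρ ≤ 1 →
      (∃ r₀ < 1, imageVol g f (Shell n r₀ ρ \ I) < ⊤) →
      ∃ C : ℝ, ∀ r : ℝ, 0 < r → r ≤ 1 / 2 →
        imageVol g f (Shell n r ρ \ I) ≤ ENNReal.ofReal (C * Real.log (1 / r)) := by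
  intro n hn X _ _ _ _ _ g I Γ f hf ρ hρ hfin
  exact Pool.Agent.H95.VG.fin2 Pool.Agent.H95.VG.mainStatement n hn X (conv g) I Γ f
    { opn := hf.1.1
      ind := hf.1.2.1
      thin := hf.1.2.2
      hol := hf.2.2.1
      graph := hf.2.1.1
      graph_eq := hf.2.2.2
      dim := hf.2.1.2 } ρ hρ hfin

end Pool.Agent.Results.MP_6803f2_an.VolumeGrowthLog
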